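import Pool.Agent.Helper24.AB.AN.Goals

open MeasureTheory Set Filter Topology
open scoped ContDiff

noncomputable section

namespace Pool.Agent.Helper72.AB

open Pool.Agent.Helper24.AB

lemma isOpen_strip (a : ℝ) : IsOpen (strip a) := by
  have h : strip a = (fun w : ℂ => |w.re|) ⁻¹' Iio a := rfl
  rw [h]
  exact isOpen_Iio.preimage (by fun_prop)

/-- the integral of a directional derivative of a compactly supported `C¹` function vanishes -/
lemma integral_dir (u : ℂ → ℂ) (hu : ContDiff ℝ 1 u) (hc : HasCompactSupport u) (v : ℂ) :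
    Integrable (fun w => fderiv ℝ u w v) ∧ ∫ w, fderiv ℝ u w v = 0 := by
  have h1 : Integrable u := hu.continuous.integrable_of_hasCompactSupport hc
  have h2 : Continuous (fun w => fderiv ℝ u w v) :=
    (hu.continuous_fderiv one_ne_zero).clm_apply continuous_const
  have h3 : HasCompactSupport (fun w => fderiv ℝ u w v) := hc.fderiv_apply ℝ v
  have h4 : Integrable (fun w => fderiv ℝ u w v) := h2.integrable_of_hasCompactSupport h3
  refine ⟨h4, ?_⟩
  have h5 := integral_bilinear_hasLineDerivAt_right_eq_neg_left_of_integrable (μ := volume)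
    (f := u) (f' := fun w => fderiv ℝ u w v) (g := fun _ => (1 : ℂ)) (g' := fun _ => (0 : ℂ))
    (v := v) (B := ContinuousLinearMap.mul ℝ ℂ) (by simpa using h4) (by simp)
    (by simpa using h1)
    (fun x _ => (hu.differentiable one_ne_zero x).hasFDerivAt.hasLineDerivAt v)
    (fun x _ => by
      have := (hasFDerivAt_const (𝕜 := ℝ) (1 : ℂ) x).hasLineDerivAt v
      simpa using this)
  simp only [ContinuousLinearMap.mul_apply', mul_zero, mul_one, integral_zero] at h5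
  have h6 : -(∫ w, fderiv ℝ u w v) = 0 := h5.symm
  exact neg_eq_zero.mp h6

/-- the product `φ e^{-Φ} h̄` -/
def uu (Φ : ℂ → ℝ) (φ h : ℂ → ℂ) (w : ℂ) : ℂ :=
  φ w * (starRingEnd ℂ) ((Real.exp (-Φ w) : ℂ) * h w)

lemma uu_smooth (a : ℝ) (Φ : ℂ → ℝ) (φ h : ℂ → ℂ) (hΦ : ContDiffOn ℝ ∞ Φ (strip a))
    (hφ : IsTest a φ) (hh : DifferentiableOn ℂ h (strip a)) : ContDiff ℝ 1 (uu Φ φ h) := by
  rw [contDiff_iff_contDiffAt]
  intro w
  by_cases hw : w ∈ strip a
  · have hn : strip a ∈ 𝓝 w := (isOpen_strip a).mem_nhds hw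
    have h1 : ContDiffAt ℝ 1 φ w := (hφ.1.of_le (by exact_mod_cast le_top)).contDiffAt
    have h2 : ContDiffAt ℝ 1 Φ w := (hΦ.contDiffAt hn).of_le (by exact_mod_cast le_top)
    have h3 : ContDiffAt ℝ 1 h w :=
      ((hh.contDiffOn (isOpen_strip a)).contDiffAt hn).restrict_scalars ℝ
    have h4 : ContDiffAt ℝ 1 (fun w => ((Real.exp (-Φ w) : ℝ) : ℂ)) w := by
      have h41 : ContDiffAt ℝ 1 (fun w => Real.exp (-Φ w)) w := h2.neg.exp
      exact Complex.ofRealCLM.contDiff.contDiffAt.comp w h41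
    have h5 : ContDiffAt ℝ 1 (fun w => ((Real.exp (-Φ w) : ℝ) : ℂ) * h w) w := h4.mul h3
    have h6 : ContDiffAt ℝ 1
        (fun w => (starRingEnd ℂ) (((Real.exp (-Φ w) : ℝ) : ℂ) * h w)) w :=
      Complex.conjCLE.contDiff.contDiffAt.comp w h5
    exact h1.mul h6
  · have hns : w ∉ tsupport φ := fun h' => hw (hφ.2.2 h')
    have h0 : φ =ᶠ[𝓝 w] 0 := notMem_tsupport_iff_eventuallyEq.mp hns
    have h1 : uu Φ φ h =ᶠ[𝓝 w] fun _ => (0 : ℂ) := by
      filter_upwards [h0] with x hx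
      simp [uu, hx]
    exact contDiffAt_const.congr_of_eventuallyEq h1

lemma uu_compact (a : ℝ) (Φ : ℂ → ℝ) (φ h : ℂ → ℂ) (hφ : IsTest a φ) :
    HasCompactSupport (uu Φ φ h) := hφ.2.1.mul_right

/-- `Dφ · e^{-Φ} h̄ = -∂(φ e^{-Φ} h̄)` on the strip -/
lemma dop_mul (a : ℝ) (Φ : ℂ → ℝ) (φ h : ℂ → ℂ) (hΦ : ContDiffOn ℝ ∞ Φ (strip a))
    (hφ : IsTest a φ) (hh : DifferentiableOn ℂ h (strip a)) (w : ℂ) (hw : w ∈ strip a) :
    Dop Φ φ w * (starRingEnd ℂ) ((Real.exp (-Φ w) : ℂ) * h w) =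
      -((fderiv ℝ (uu Φ φ h) w 1 - Complex.I * fderiv ℝ (uu Φ φ h) w Complex.I) / 2) := by
  have hn : strip a ∈ 𝓝 w := (isOpen_strip a).mem_nhds hw
  have h1 : HasFDerivAt φ (fderiv ℝ φ w) w :=
    (hφ.1.differentiable (by simp) w).hasFDerivAt
  have h2 : HasFDerivAt Φ (fderiv ℝ Φ w) w :=
    ((hΦ.contDiffAt hn).differentiableAt (by simp)).hasFDerivAt
  have h3 : HasFDerivAt h ((fderiv ℂ h w).restrictScalars ℝ) w :=
    ((hh.differentiableAt hn).hasFDerivAt).restrictScalars ℝ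
  have h3' : HasFDerivAt (fun w => (starRingEnd ℂ) (h w))
      ((Complex.conjCLE : ℂ →L[ℝ] ℂ).comp ((fderiv ℂ h w).restrictScalars ℝ)) w :=
    (Complex.conjCLE : ℂ →L[ℝ] ℂ).hasFDerivAt.comp w h3
  have h2' : HasFDerivAt (fun w => (Φ w : ℂ)) (Complex.ofRealCLM.comp (fderiv ℝ Φ w)) w :=
    Complex.ofRealCLM.hasFDerivAt.comp w h2
  have h4 : HasFDerivAt (fun w => ((Real.exp (-Φ w) : ℝ) : ℂ))
      (Complex.ofRealCLM.comp (Real.exp (-Φ w) • -(fderiv ℝ Φ w))) w :=
    Complex.ofRealCLM.hasFDerivAt.comp w (h2.neg.exp)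
  have h5 := h4.mul h3'
  have h6 := h1.mul h5
  have h7 : uu Φ φ h = fun w => φ w * (((Real.exp (-Φ w) : ℝ) : ℂ) * (starRingEnd ℂ) (h w)) := by
    funext w
    simp only [uu, map_mul, Complex.conj_ofReal]
  have h7' : uu Φ φ h = φ * ((fun w => ((Real.exp (-Φ w) : ℝ) : ℂ)) *
      fun w => (starRingEnd ℂ) (h w)) := h7
  rw [h7', h6.fderiv]
  simp only [Dop, dz, dS, dT, h2'.fderiv, map_mul, Complex.conj_ofReal]
  have hI : (fderiv ℂ h w) Complex.I = Complex.I * (fderiv ℂ h w) 1 := by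
    have h9 : (fderiv ℂ h w) (Complex.I • (1 : ℂ)) = Complex.I • (fderiv ℂ h w) 1 :=
      map_smul (fderiv ℂ h w) Complex.I (1 : ℂ)
    simpa using h9
  simp [hI]
  ring_nf
  simp only [Complex.I_sq]
  ring

lemma test_zero (a : ℝ) (Φ : ℂ → ℝ) (φ h : ℂ → ℂ) (hΦ : ContDiffOn ℝ ∞ Φ (strip a))
    (hφ : IsTest a φ) (hh : DifferentiableOn ℂ h (strip a)) :
    ∫ w in strip a, Dop Φ φ w * (starRingEnd ℂ) ((Real.exp (-Φ w) : ℂ) * h w) = 0 := by
  have hu := uu_smooth a Φ φ h hΦ hφ hh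
  have hc := uu_compact a Φ φ h hφ
  obtain ⟨i1, e1⟩ := integral_dir _ hu hc 1
  obtain ⟨i2, e2⟩ := integral_dir _ hu hc Complex.I
  have hm : MeasurableSet (strip a) := (isOpen_strip a).measurableSet
  rw [setIntegral_congr_fun hm (fun w hw => dop_mul a Φ φ h hΦ hφ hh w hw)]
  have h0 : ∀ w, w ∉ strip a →
      -((fderiv ℝ (uu Φ φ h) w 1 - Complex.I * fderiv ℝ (uu Φ φ h) w Complex.I) / 2) = 0 := by
    intro w hw
    have hns : w ∉ tsupport φ := fun h' => hw (hφ.2.2 h')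
    have h0 : φ =ᶠ[𝓝 w] 0 := notMem_tsupport_iff_eventuallyEq.mp hns
    have h1 : uu Φ φ h =ᶠ[𝓝 w] fun _ => (0 : ℂ) := by
      filter_upwards [h0] with x hx
      simp [uu, hx]
    have h2 : fderiv ℝ (uu Φ φ h) w = 0 := by
      rw [h1.fderiv_eq]; simp
    rw [h2]; simp
  rw [setIntegral_eq_integral_of_forall_compl_eq_zero h0]
  rw [integral_neg, integral_div, integral_sub i1 (i2.const_mul _), integral_const_mul, e1, e2]
  simp

/-- `Dφ` is continuous with compact support -/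
lemma dop_cont (a : ℝ) (Φ : ℂ → ℝ) (φ : ℂ → ℂ) (hΦ : ContDiffOn ℝ ∞ Φ (strip a))
    (hφ : IsTest a φ) : Continuous (Dop Φ φ) ∧ HasCompactSupport (Dop Φ φ) := by
  have hz : ∀ w, w ∉ tsupport φ → Dop Φ φ =ᶠ[𝓝 w] fun _ => (0 : ℂ) := by
    intro w hns
    have h0 : φ =ᶠ[𝓝 w] 0 := notMem_tsupport_iff_eventuallyEq.mp hns
    filter_upwards [h0.eventually_nhds] with x hx
    have h1 : fderiv ℝ φ x = 0 := by
      rw [Filter.EventuallyEq.fderiv_eq hx]; simp
    have h2 : φ x = 0 := hx.self_of_nhds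
    simp [Dop, dz, dS, dT, h1, h2]
  constructor
  · rw [continuous_iff_continuousAt]
    intro w
    by_cases hw : w ∈ strip a
    · have hn : strip a ∈ 𝓝 w := (isOpen_strip a).mem_nhds hw
      have h1 : Continuous (fderiv ℝ φ) := hφ.1.continuous_fderiv (by simp)
      have h2' : ContDiffAt ℝ 1 (fun w => (Φ w : ℂ)) w := by
        have h2 : ContDiffAt ℝ 1 Φ w := (hΦ.contDiffAt hn).of_le (by exact_mod_cast le_top)
        exact Complex.ofRealCLM.contDiff.contDiffAt.comp w h2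
      have h2 : ContinuousAt (fderiv ℝ (fun w => (Φ w : ℂ))) w :=
        h2'.continuousAt_fderiv (by simp)
      have h3 : ContinuousAt φ w := hφ.1.continuous.continuousAt
      have e1 : ContinuousAt (fun w => fderiv ℝ φ w 1) w :=
        (h1.clm_apply continuous_const).continuousAt
      have e2 : ContinuousAt (fun w => fderiv ℝ φ w Complex.I) w :=
        (h1.clm_apply continuous_const).continuousAt
      have e3 : ContinuousAt (fun w => fderiv ℝ (fun w => (Φ w : ℂ)) w 1) w :=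
        h2.clm_apply continuousAt_const
      have e4 : ContinuousAt (fun w => fderiv ℝ (fun w => (Φ w : ℂ)) w Complex.I) w :=
        h2.clm_apply continuousAt_const
      exact ((e1.sub (continuousAt_const.mul e2)).div_const 2).neg.add
        (((e3.sub (continuousAt_const.mul e4)).div_const 2).mul h3)
    · have hns : w ∉ tsupport φ := fun h' => hw (hφ.2.2 h')
      exact (continuousAt_const.congr_of_eventuallyEq (hz w hns))
  · refine HasCompactSupport.intro hφ.2.1 (fun w hw => ?_)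
    exact (hz w hw).self_of_nhds

theorem ort : S_ORT := by
  intro a Φ z y h ha hΦ hd hh hH
  obtain ⟨φ, hφ, -, hlim⟩ := hd.approx
  set H : ℂ → ℂ := fun w => (Real.exp (-Φ w) : ℂ) * h w with hHdef
  have hH' : MemLp (fun w => (starRingEnd ℂ) (H w)) 2 (muS a) := hH.star
  have hy := hd.memy
  -- the approximating functions are in `L²`
  have hD : ∀ n, MemLp (Dop Φ (φ n)) 2 (muS a) := fun n =>
    ((dop_cont a Φ (φ n) hΦ (hφ n)).1.memLp_of_hasCompactSupport
      (dop_cont a Φ (φ n) hΦ (hφ n)).2).restrict (strip a)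
  have hDc : ∀ n, MemLp (fun w => Dop Φ (φ n) w - y w) 2 (muS a) := fun n => (hD n).sub hy
  have key : ∀ n, ∫ w in strip a, (Dop Φ (φ n) w - y w) * (starRingEnd ℂ) (H w) =
      - ∫ w in strip a, y w * (starRingEnd ℂ) (H w) := by
    intro n
    have i1 : Integrable (fun w => Dop Φ (φ n) w * (starRingEnd ℂ) (H w)) (muS a) :=
      (hD n).integrable_mul hH'
    have i2 : Integrable (fun w => y w * (starRingEnd ℂ) (H w)) (muS a) := hy.integrable_mul hH'
    simp only [sub_mul]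
    rw [integral_sub i1 i2, test_zero a Φ (φ n) h hΦ (hφ n) hh]
    simp
  have hbd : ∀ n, ENNReal.ofReal ‖∫ w in strip a, y w * (starRingEnd ℂ) (H w)‖ ≤
      eLpNorm (fun w => Dop Φ (φ n) w - y w) 2 (muS a) *
        eLpNorm (fun w => (starRingEnd ℂ) (H w)) 2 (muS a) := by
    intro n
    have e1 : ‖∫ w in strip a, y w * (starRingEnd ℂ) (H w)‖ =
        ‖∫ w in strip a, (Dop Φ (φ n) w - y w) * (starRingEnd ℂ) (H w)‖ := by
      rw [key n, norm_neg]
    rw [e1, ofReal_norm]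
    refine (enorm_integral_le_lintegral_enorm _).trans ?_
    rw [← eLpNorm_one_eq_lintegral_enorm]
    have := eLpNorm_smul_le_mul_eLpNorm (p := 2) (q := 2) (r := 1) hH'.1 (hDc n).1
    exact this
  have hfin : eLpNorm (fun w => (starRingEnd ℂ) (H w)) 2 (muS a) ≠ ⊤ := hH'.2.ne
  have hlim2 : Tendsto (fun n => eLpNorm (fun w => Dop Φ (φ n) w - y w) 2 (muS a) *
      eLpNorm (fun w => (starRingEnd ℂ) (H w)) 2 (muS a)) atTop (𝓝 0) := by
    have := ENNReal.Tendsto.mul_const hlim (Or.inr hfin)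
    simpa using this
  have h0 : ENNReal.ofReal ‖∫ w in strip a, y w * (starRingEnd ℂ) (H w)‖ ≤ 0 :=
    ge_of_tendsto' hlim2 hbd
  have h1 : ‖∫ w in strip a, y w * (starRingEnd ℂ) (H w)‖ ≤ 0 := by
    simpa using h0
  exact norm_le_zero_iff.mp h1

end Pool.Agent.Helper72.AB
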