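import Pool.Agent.Helper24.AB.PP.Goals

open MeasureTheory Set Filter Topology
open scoped ContDiff

noncomputable section

namespace Pool.Agent.Helper72.AB.PHole

open Pool.Agent.Helper24.AB

lemma two_le : (2 : WithTop ℕ∞) ≤ ∞ := by
  have h : ((2 : ℕ∞) : WithTop ℕ∞) ≤ ((⊤ : ℕ∞) : WithTop ℕ∞) := WithTop.coe_le_coe.mpr le_top
  exact h

/-! ## calculus of `lapC` -/

lemma lapC_def (f : ℂ → ℝ) (w : ℂ) : lapC f w =
    fderiv ℝ (fun y => fderiv ℝ f y 1) w 1 +
      fderiv ℝ (fun y => fderiv ℝ f y Complex.I) w Complex.I := rfl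

lemma dS_congr {f g : ℂ → ℝ} {w : ℂ} (h : f =ᶠ[𝓝 w] g) : dS f =ᶠ[𝓝 w] dS g := by
  filter_upwards [h.eventually_nhds] with y hy
  simp only [dS]
  rw [Filter.EventuallyEq.fderiv_eq hy]

lemma dT_congr {f g : ℂ → ℝ} {w : ℂ} (h : f =ᶠ[𝓝 w] g) : dT f =ᶠ[𝓝 w] dT g := by
  filter_upwards [h.eventually_nhds] with y hy
  simp only [dT]
  rw [Filter.EventuallyEq.fderiv_eq hy]

lemma lapC_congr {f g : ℂ → ℝ} {w : ℂ} (h : f =ᶠ[𝓝 w] g) : lapC f w = lapC g w := by
  simp only [lapC]
  rw [(dS_congr (dS_congr h)).self_of_nhds, (dT_congr (dT_congr h)).self_of_nhds]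

lemma ev_diff {f : ℂ → ℝ} {w : ℂ} (h : ContDiffAt ℝ 2 f w) :
    ∀ᶠ y in 𝓝 w, DifferentiableAt ℝ f y := by
  filter_upwards [h.eventually (by simp)] with y hy
  exact hy.differentiableAt (by simp)

lemma diff_dS {f : ℂ → ℝ} {w : ℂ} (h : ContDiffAt ℝ 2 f w) (v : ℂ) :
    DifferentiableAt ℝ (fun y => fderiv ℝ f y v) w := by
  have h1 : ContDiffAt ℝ 1 (fderiv ℝ f) w := h.fderiv_right (by norm_num)
  exact (h1.differentiableAt (by simp)).clm_apply (differentiableAt_const _)

lemma lapC_add {f g : ℂ → ℝ} {w : ℂ} (hf : ContDiffAt ℝ 2 f w) (hg : ContDiffAt ℝ 2 g w) :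
    lapC (fun y => f y + g y) w = lapC f w + lapC g w := by
  have key : ∀ v : ℂ, (fun y => fderiv ℝ (fun y => f y + g y) y v) =ᶠ[𝓝 w]
      fun y => fderiv ℝ f y v + fderiv ℝ g y v := by
    intro v
    filter_upwards [ev_diff hf, ev_diff hg] with y h1 h2
    rw [fderiv_fun_add h1 h2]
    rfl
  have k2 : ∀ v : ℂ, fderiv ℝ (fun y => fderiv ℝ (fun y => f y + g y) y v) w v =
      fderiv ℝ (fun y => fderiv ℝ f y v) w v + fderiv ℝ (fun y => fderiv ℝ g y v) w v := by
    intro v
    rw [(key v).fderiv_eq, fderiv_fun_add (diff_dS hf v) (diff_dS hg v)]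
    rfl
  have e1 := k2 1
  have e2 := k2 Complex.I
  rw [lapC_def, lapC_def, e1, e2]
  try rw [lapC_def]
  ring

lemma lapC_mul {f : ℂ → ℝ} {w : ℂ} (hf : ContDiffAt ℝ 2 f w) (c : ℝ) :
    lapC (fun y => c * f y) w = c * lapC f w := by
  have key : ∀ v : ℂ, (fun y => fderiv ℝ (fun y => c * f y) y v) =ᶠ[𝓝 w]
      fun y => c * fderiv ℝ f y v := by
    intro v
    filter_upwards [ev_diff hf] with y h1
    rw [fderiv_const_mul h1]
    rfl
  have k2 : ∀ v : ℂ, fderiv ℝ (fun y => fderiv ℝ (fun y => c * f y) y v) w v =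
      c * fderiv ℝ (fun y => fderiv ℝ f y v) w v := by
    intro v
    rw [(key v).fderiv_eq, fderiv_const_mul (diff_dS hf v)]
    rfl
  have e1 := k2 1
  have e2 := k2 Complex.I
  rw [lapC_def, lapC_def, e1, e2]
  try rw [lapC_def]
  ring

lemma lapC_shift (f : ℂ → ℝ) (b w : ℂ) : lapC (fun y => f (y + b)) w = lapC f (w + b) := by
  have key : ∀ (h : ℂ → ℝ) (v : ℂ), (fun y => fderiv ℝ (fun y => h (y + b)) y v) =
      fun y => fderiv ℝ h (y + b) v := by
    intro h v
    funext y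
    rw [fderiv_comp_add_right]
  have k1 : ∀ (h : ℂ → ℝ) (v : ℂ), fderiv ℝ (fun y => fderiv ℝ h (y + b) v) w v =
      fderiv ℝ (fun y => fderiv ℝ h y v) (w + b) v := by
    intro h v
    exact congrFun (key (fun y => fderiv ℝ h y v) v) w
  rw [lapC_def, lapC_def, key f 1, key f Complex.I, k1 f 1, k1 f Complex.I]

/-- the real part of a holomorphic function is harmonic -/
lemma lapC_re (H : ℂ → ℂ) (V : Set ℂ) (hV : IsOpen V) (hH : DifferentiableOn ℂ H V) (w : ℂ)
    (hw : w ∈ V) : lapC (fun y => (H y).re) w = 0 := by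
  have hn : ∀ y ∈ V, V ∈ 𝓝 y := fun y hy => hV.mem_nhds hy
  have hd : ∀ (K : ℂ → ℂ), DifferentiableOn ℂ K V → ∀ y ∈ V,
      HasFDerivAt (fun y => (K y).re)
        (Complex.reCLM.comp ((fderiv ℂ K y).restrictScalars ℝ)) y := by
    intro K hK y hy
    have h1 : HasFDerivAt K ((fderiv ℂ K y).restrictScalars ℝ) y :=
      ((hK.differentiableAt (hn y hy)).hasFDerivAt).restrictScalars ℝ
    exact Complex.reCLM.hasFDerivAt.comp y h1
  have hap : ∀ (K : ℂ → ℂ), DifferentiableOn ℂ K V → ∀ y ∈ V, ∀ v : ℂ,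
      fderiv ℝ (fun y => (K y).re) y v = (v * deriv K y).re := by
    intro K hK y hy v
    rw [(hd K hK y hy).fderiv]
    simp only [ContinuousLinearMap.comp_apply, ContinuousLinearMap.coe_restrictScalars',
      Complex.reCLM_apply]
    have : (fderiv ℂ K y) v = v * deriv K y := by
      have h2 : (fderiv ℂ K y) (v • (1 : ℂ)) = v • (fderiv ℂ K y) 1 :=
        map_smul (fderiv ℂ K y) v (1 : ℂ)
      simpa using h2
    rw [this]
  have hdH : DifferentiableOn ℂ (deriv H) V := hH.deriv hV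
  have hdvH : ∀ v : ℂ, DifferentiableOn ℂ (fun y => v * deriv H y) V :=
    fun v => hdH.const_mul v
  have k2 : ∀ v : ℂ, fderiv ℝ (fun y => fderiv ℝ (fun y => (H y).re) y v) w v =
      (v * (v * deriv (deriv H) w)).re := by
    intro v
    have e : (fun y => fderiv ℝ (fun y => (H y).re) y v) =ᶠ[𝓝 w]
        fun y => (v * deriv H y).re := by
      filter_upwards [hn w hw] with y hy
      exact hap H hH y hy v
    rw [e.fderiv_eq, hap (fun y => v * deriv H y) (hdvH v) w hw v]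
    have : deriv (fun y => v * deriv H y) w = v * deriv (deriv H) w :=
      deriv_const_mul v (hdH.differentiableAt (hn w hw))
    rw [this]
  have e1 := k2 1
  have e2 := k2 Complex.I
  rw [lapC_def, e1, e2]
  have h3 : Complex.I * (Complex.I * deriv (deriv H) w) = - deriv (deriv H) w := by
    rw [← mul_assoc, Complex.I_mul_I]; ring
  rw [h3]
  simp

lemma smooth_re (H : ℂ → ℂ) (V : Set ℂ) (hV : IsOpen V) (hH : DifferentiableOn ℂ H V) (w : ℂ)
    (hw : w ∈ V) : ContDiffAt ℝ ∞ (fun y => (H y).re) w := by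
  have h1 : ContDiffAt ℝ ∞ H w :=
    ((hH.contDiffOn hV).contDiffAt (hV.mem_nhds hw)).restrict_scalars ℝ
  exact Complex.reCLM.contDiff.contDiffAt.comp w h1

/-! ## numbers -/

lemma lam_pos : 0 < lam := by
  unfold lam
  positivity

lemma lam_one : 1 < lam := by
  unfold lam
  have : (0 : ℝ) ≤ Real.sqrt 5 := Real.sqrt_nonneg 5
  linarith

lemma lam_three : lam < 3 := by
  unfold lam
  have h : Real.sqrt 5 < 3 := by
    rw [Real.sqrt_lt' (by norm_num)]
    norm_num
  linarith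

lemma lam_zpow_le (k : ℤ) : lam ^ k ≤ 3 ^ k.natAbs := by
  have h0 := lam_pos
  have h1 := lam_one
  have h3 := lam_three
  rcases le_or_gt 0 k with hk | hk
  · obtain ⟨n, rfl⟩ := Int.eq_ofNat_of_zero_le hk
    simp only [zpow_natCast, Int.natAbs_natCast]
    exact pow_le_pow_left₀ h0.le h3.le n
  · have : lam ^ k ≤ 1 := zpow_le_one_of_nonpos₀ h1.le hk.le
    exact this.trans (one_le_pow₀ (by norm_num))

lemma rho_lt : 3 * Real.exp (-(4 * Real.pi)) < 1 := by
  have h1 : (3 : ℝ) < Real.exp (4 * Real.pi) := by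
    have h2 := Real.add_one_le_exp (4 * Real.pi)
    have h3 := Real.pi_gt_three
    linarith
  rw [Real.exp_neg]
  have h4 : 0 < Real.exp (4 * Real.pi) := Real.exp_pos _
  rw [← div_eq_mul_inv, div_lt_one h4]
  exact h1

/-- the majorant -/
def maj (s : ℝ) (k : ℤ) : ℝ := lam ^ k * (8 * Real.exp (-(2 * (|s - 2 * Real.pi * k| - 1))))

lemma maj_nonneg (s : ℝ) (k : ℤ) : 0 ≤ maj s k := by
  unfold maj
  have := lam_pos
  positivity

lemma maj_le (s : ℝ) (k : ℤ) : maj s k ≤
    8 * Real.exp (2 + 2 * |s|) * (3 * Real.exp (-(4 * Real.pi))) ^ k.natAbs := by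
  unfold maj
  have h1 : |s - 2 * Real.pi * k| ≥ 2 * Real.pi * k.natAbs - |s| := by
    have e1 : 2 * Real.pi * (k.natAbs : ℝ) = |2 * Real.pi * (k : ℝ)| := by
      rw [abs_mul, abs_of_pos (by positivity : (0 : ℝ) < 2 * Real.pi)]
      congr 1
      rw [← Int.cast_abs, Nat.cast_natAbs]
    rw [e1]
    have h2 : |2 * Real.pi * (k : ℝ)| - |s| ≤ |2 * Real.pi * (k : ℝ) - s| :=
      abs_sub_abs_le_abs_sub _ _
    rw [abs_sub_comm] at h2
    exact h2
  have h2 : Real.exp (-(2 * (|s - 2 * Real.pi * k| - 1))) ≤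
      Real.exp (2 + 2 * |s|) * Real.exp (-(4 * Real.pi)) ^ k.natAbs := by
    rw [← Real.exp_nat_mul, ← Real.exp_add]
    apply Real.exp_le_exp.mpr
    nlinarith [h1]
  have h3 := lam_zpow_le k
  have h4 : 0 < lam ^ k := zpow_pos lam_pos k
  calc lam ^ k * (8 * Real.exp (-(2 * (|s - 2 * Real.pi * k| - 1))))
      ≤ 3 ^ k.natAbs * (8 * (Real.exp (2 + 2 * |s|) * Real.exp (-(4 * Real.pi)) ^ k.natAbs)) := by
        gcongr
    _ = _ := by rw [mul_pow]; ring

lemma maj_summable (s : ℝ) : Summable (maj s) := by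
  have h0 : 0 ≤ 3 * Real.exp (-(4 * Real.pi)) := by positivity
  have hg := summable_geometric_of_lt_one h0 rho_lt
  have hz : Summable (fun k : ℤ => (3 * Real.exp (-(4 * Real.pi))) ^ k.natAbs) := by
    apply Summable.of_nat_of_neg
    · simpa using hg
    · simpa only [Int.natAbs_neg, Int.natAbs_natCast] using hg
  exact Summable.of_nonneg_of_le (maj_nonneg s) (maj_le s) (hz.mul_left _)

/-! ## the series -/

section main

variable (L : ℂ → ℝ) (G : ℂ → ℂ) (x : ℂ)

/-- the translation -/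
def tau (k : ℤ) (w : ℂ) : ℂ := w - x - 2 * Real.pi * Complex.I * k

/-- the series -/
def P0 (w : ℂ) : ℝ := ∑' k : ℤ, lam ^ k * L (tau x k w)

lemma tau_im (k : ℤ) (w : ℂ) : (tau x k w).im = w.im - x.im - 2 * Real.pi * k := by
  simp [tau]

lemma tau_re (k : ℤ) (w : ℂ) : (tau x k w).re = w.re - x.re := by
  simp [tau]

lemma P0_shift (w : ℂ) : P0 L x (w + 2 * Real.pi * Complex.I) = lam * P0 L x w := by
  unfold P0
  rw [← tsum_mul_left, ← (Equiv.addRight (1 : ℤ)).tsum_eq]
  apply tsum_congr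
  intro k
  simp only [Equiv.coe_addRight]
  have h1 : tau x (k + 1) (w + 2 * Real.pi * Complex.I) = tau x k w := by
    simp only [tau]
    push_cast
    ring
  rw [h1, zpow_add_one₀ lam_pos.ne']
  ring

/-- the open set -/
def Vc (c : ℝ) : Set ℂ := {w | |w.re| < 1 ∧ |w.im - c| < 1}

lemma isOpen_Vc (c : ℝ) : IsOpen (Vc c) := by
  have h : Vc c = (fun w : ℂ => |w.re|) ⁻¹' Iio 1 ∩ (fun w : ℂ => |w.im - c|) ⁻¹' Iio 1 := rfl
  rw [h]
  exact (isOpen_Iio.preimage (by fun_prop)).inter (isOpen_Iio.preimage (by fun_prop))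

/-- the other terms -/
def Hk (k0 k : ℤ) (w : ℂ) : ℂ := if k = k0 then 0 else ((lam ^ k : ℝ) : ℂ) * G (tau x k w)

variable {L G x}

lemma Hk_bound (hx : |x.re| ≤ 1 / 2)
    (hG : ∀ ζ : ℂ, |ζ.re| < 3 / 2 → 1 / 2 < |ζ.im| → L ζ = (G ζ).re ∧
      ‖G ζ‖ ≤ 8 * Real.exp (-(2 * |ζ.im|))) (c : ℝ) (k0 : ℤ)
    (hc : |c - x.im - 2 * Real.pi * k0| ≤ Real.pi) (k : ℤ) (hk : k ≠ k0) (w : ℂ)
    (hw : w ∈ Vc c) : |(tau x k w).re| < 3 / 2 ∧ 1 / 2 < |(tau x k w).im| ∧
      ‖((lam ^ k : ℝ) : ℂ) * G (tau x k w)‖ ≤ maj (c - x.im) k := by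
  have hre : |(tau x k w).re| < 3 / 2 := by
    rw [tau_re]
    have := abs_sub w.re x.re
    have h1 := hw.1
    linarith
  have h1 : Real.pi ≤ |c - x.im - 2 * Real.pi * k| := by
    have h2 : (1 : ℝ) ≤ |((k - k0 : ℤ) : ℝ)| := by
      have h3 : 1 ≤ |k - k0| := Int.one_le_abs (sub_ne_zero.mpr hk)
      rw [← Int.cast_abs]
      exact_mod_cast h3
    have h4 : c - x.im - 2 * Real.pi * k =
        (c - x.im - 2 * Real.pi * k0) - 2 * Real.pi * ((k - k0 : ℤ) : ℝ) := by
      push_cast; ring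
    have h5 : |2 * Real.pi * ((k - k0 : ℤ) : ℝ)| ≥ 2 * Real.pi := by
      rw [abs_mul, abs_of_pos (by positivity : (0 : ℝ) < 2 * Real.pi)]
      nlinarith [Real.pi_pos]
    have h6 : |2 * Real.pi * ((k - k0 : ℤ) : ℝ)| - |c - x.im - 2 * Real.pi * k0| ≤
        |2 * Real.pi * ((k - k0 : ℤ) : ℝ) - (c - x.im - 2 * Real.pi * k0)| :=
      abs_sub_abs_le_abs_sub _ _
    rw [h4, abs_sub_comm]
    linarith
  have h2 : |c - x.im - 2 * Real.pi * k| - 1 ≤ |(tau x k w).im| := by
    rw [tau_im]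
    have h3 : |c - x.im - 2 * Real.pi * k| ≤ |w.im - x.im - 2 * Real.pi * k| + |c - w.im| := by
      have : c - x.im - 2 * Real.pi * k = (w.im - x.im - 2 * Real.pi * k) + (c - w.im) := by ring
      rw [this]
      exact abs_add_le _ _
    have h4 := hw.2
    rw [abs_sub_comm] at h4
    linarith
  have hpi := Real.pi_gt_three
  have him : 1 / 2 < |(tau x k w).im| := by linarith
  refine ⟨hre, him, ?_⟩
  have h3 := (hG _ hre him).2
  rw [norm_mul, Complex.norm_real, Real.norm_of_nonneg (zpow_pos lam_pos k).le]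
  unfold maj
  have h4 : 0 < lam ^ k := zpow_pos lam_pos k
  apply mul_le_mul_of_nonneg_left _ h4.le
  refine h3.trans ?_
  have h5 : Real.exp (-(2 * |(tau x k w).im|)) ≤
      Real.exp (-(2 * (|c - x.im - 2 * Real.pi * k| - 1))) := by
    apply Real.exp_le_exp.mpr
    linarith
  linarith

/-- local form of the series -/
lemma P0_local (hx : |x.re| ≤ 1 / 2)
    (hGd : DifferentiableOn ℂ G {ζ | |ζ.re| < 3 / 2 ∧ 1 / 2 < |ζ.im|})
    (hG : ∀ ζ : ℂ, |ζ.re| < 3 / 2 → 1 / 2 < |ζ.im| → L ζ = (G ζ).re ∧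
      ‖G ζ‖ ≤ 8 * Real.exp (-(2 * |ζ.im|))) (c : ℝ) (k0 : ℤ)
    (hc : |c - x.im - 2 * Real.pi * k0| ≤ Real.pi) :
    ∃ H : ℂ → ℂ, DifferentiableOn ℂ H (Vc c) ∧
      ∀ w ∈ Vc c, P0 L x w = lam ^ k0 * L (tau x k0 w) + (H w).re := by
  have hb : ∀ (k : ℤ) (w : ℂ), w ∈ Vc c → ‖Hk G x k0 k w‖ ≤ maj (c - x.im) k := by
    intro k w hw
    unfold Hk
    split_ifs with h
    · simpa using maj_nonneg _ _
    · exact (Hk_bound hx hG c k0 hc k h w hw).2.2
  refine ⟨fun w => ∑' k, Hk G x k0 k w, ?_, ?_⟩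
  · apply Complex.differentiableOn_tsum_of_summable_norm (maj_summable (c - x.im)) _
      (isOpen_Vc c) hb
    intro k
    unfold Hk
    split_ifs with h
    · exact differentiableOn_const _
    · apply DifferentiableOn.const_mul
      have hsub : MapsTo (tau x k) (Vc c) {ζ | |ζ.re| < 3 / 2 ∧ 1 / 2 < |ζ.im|} := by
        intro w hw
        have := Hk_bound hx hG c k0 hc k h w hw
        exact ⟨this.1, this.2.1⟩
      have ht : DifferentiableOn ℂ (tau x k) (Vc c) := by
        unfold tau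
        fun_prop
      exact hGd.comp ht hsub
  · intro w hw
    have hs : Summable (fun k => Hk G x k0 k w) :=
      Summable.of_norm_bounded (maj_summable (c - x.im)) (fun k => hb k w hw)
    have hre : HasSum (fun k => (Hk G x k0 k w).re) (∑' k, Hk G x k0 k w).re :=
      Complex.hasSum_re hs.hasSum
    have hsing : HasSum (fun k => if k = k0 then lam ^ k0 * L (tau x k0 w) else 0)
        (lam ^ k0 * L (tau x k0 w)) := hasSum_ite_eq k0 _
    have hsum := hsing.add hre
    have hfun : (fun k : ℤ => lam ^ k * L (tau x k w)) = fun k =>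
        (if k = k0 then lam ^ k0 * L (tau x k0 w) else 0) + (Hk G x k0 k w).re := by
      funext k
      unfold Hk
      split_ifs with h
      · rw [h]; simp
      · have h1 := Hk_bound hx hG c k0 hc k h w hw
        have h2 := (hG _ h1.1 h1.2.1).1
        rw [h2, Complex.re_ofReal_mul]
        ring
    unfold P0
    rw [hfun]
    exact hsum.tsum_eq

end main

theorem phole (hLR : S_LR) : S_PHOLE := by
  intro r hr hr4 x hx
  obtain ⟨L, G, hLs, hLn, hLz, hLi, hGd, hG⟩ := hLR r hr hr4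
  have hopen : IsOpen {ζ : ℂ | |ζ.re| < 3 / 2} := by
    have h : {ζ : ℂ | |ζ.re| < 3 / 2} = (fun w : ℂ => |w.re|) ⁻¹' Iio (3 / 2) := rfl
    rw [h]
    exact isOpen_Iio.preimage (by fun_prop)
  -- the representation near a point
  have hk0 : ∀ c : ℝ, ∃ k0 : ℤ, |c - x.im - 2 * Real.pi * k0| ≤ Real.pi := by
    intro c
    refine ⟨round ((c - x.im) / (2 * Real.pi)), ?_⟩
    have h1 := abs_sub_round ((c - x.im) / (2 * Real.pi))
    have hpi := Real.pi_pos
    have h2 : c - x.im - 2 * Real.pi * (round ((c - x.im) / (2 * Real.pi)) : ℝ) =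
        2 * Real.pi * ((c - x.im) / (2 * Real.pi) - round ((c - x.im) / (2 * Real.pi))) := by
      field_simp
    rw [h2, abs_mul, abs_of_pos (by positivity : (0 : ℝ) < 2 * Real.pi)]
    nlinarith
  have hmain : ∀ (c : ℝ) (k0 : ℤ), |c - x.im - 2 * Real.pi * k0| ≤ Real.pi → ∀ w ∈ Vc c,
      ContDiffAt ℝ ∞ (P0 L x) w ∧ lapC (P0 L x) w = lam ^ k0 * lapC L (tau x k0 w) := by
    intro c k0 hc w hw
    obtain ⟨H, hHd, hH⟩ := P0_local hx hGd hG c k0 hc
    have hn : Vc c ∈ 𝓝 w := (isOpen_Vc c).mem_nhds hw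
    have hre : |(tau x k0 w).re| < 3 / 2 := by
      rw [tau_re]
      have := abs_sub w.re x.re
      have h1 := hw.1
      linarith
    have hL1 : ContDiffAt ℝ ∞ L (tau x k0 w) := hLs.contDiffAt (hopen.mem_nhds hre)
    have htau : ∀ y, tau x k0 y = y + (-(x + 2 * Real.pi * Complex.I * k0)) := by
      intro y; simp only [tau]; ring
    have hL2 : ContDiffAt ℝ ∞ (fun y => L (tau x k0 y)) w := by
      have h1 : ContDiffAt ℝ ∞ (tau x k0) w := by
        unfold tau
        fun_prop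
      exact hL1.comp w h1
    have hR := smooth_re H (Vc c) (isOpen_Vc c) hHd w hw
    have heq : P0 L x =ᶠ[𝓝 w] fun y => lam ^ k0 * L (tau x k0 y) + (H y).re := by
      filter_upwards [hn] with y hy
      exact hH y hy
    have hM : ContDiffAt ℝ ∞ (fun y => lam ^ k0 * L (tau x k0 y)) w :=
      contDiffAt_const.mul hL2
    constructor
    · exact (hM.add hR).congr_of_eventuallyEq heq
    · rw [lapC_congr heq]
      rw [lapC_add (f := fun y => lam ^ k0 * L (tau x k0 y)) (g := fun y => (H y).re)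
        (hM.of_le two_le) (hR.of_le two_le)]
      rw [lapC_re H (Vc c) (isOpen_Vc c) hHd w hw, add_zero]
      rw [lapC_mul (f := fun y => L (tau x k0 y)) (hL2.of_le two_le)]
      have : (fun y => L (tau x k0 y)) =
          fun y => L (y + (-(x + 2 * Real.pi * Complex.I * k0))) := by
        funext y; rw [htau]
      rw [this, lapC_shift, ← htau]
  -- the cut-off
  let b : ContDiffBump (0 : ℝ) := ⟨3 / 4, 9 / 10, by norm_num, by norm_num⟩
  have hb1 : ∀ s : ℝ, |s| ≤ 3 / 4 → b s = 1 := by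
    intro s hs
    apply b.one_of_mem_closedBall
    rw [Metric.mem_closedBall, dist_zero_right]
    exact hs
  have hb0 : ∀ s : ℝ, 9 / 10 ≤ |s| → b s = 0 := by
    intro s hs
    apply b.zero_of_le_dist
    rw [dist_zero_right]
    exact hs
  have hbs : ContDiff ℝ ∞ (fun w : ℂ => b w.re) :=
    b.contDiff.comp Complex.reCLM.contDiff
  have hself : ∀ w : ℂ, |w.re| < 1 → w ∈ Vc w.im := by
    intro w hw
    exact ⟨hw, by simp⟩
  have hnear : ∀ w : ℂ, |w.re| < 3 / 4 → (fun w : ℂ => b w.re * P0 L x w) =ᶠ[𝓝 w] P0 L x := by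
    intro w hw
    have ho : IsOpen {ζ : ℂ | |ζ.re| < 3 / 4} := by
      have h : {ζ : ℂ | |ζ.re| < 3 / 4} = (fun w : ℂ => |w.re|) ⁻¹' Iio (3 / 4) := rfl
      rw [h]
      exact isOpen_Iio.preimage (by fun_prop)
    filter_upwards [ho.mem_nhds hw] with y hy
    rw [hb1 y.re (le_of_lt hy), one_mul]
  refine ⟨fun w => b w.re * P0 L x w, ?_, ?_, ?_, ?_, ?_, ?_⟩
  · rw [contDiff_iff_contDiffAt]
    intro w
    by_cases hw : |w.re| < 1
    · obtain ⟨k0, hk⟩ := hk0 w.im
      exact hbs.contDiffAt.mul (hmain w.im k0 hk w (hself w hw)).1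
    · have ho : IsOpen {ζ : ℂ | 9 / 10 < |ζ.re|} := by
        have h : {ζ : ℂ | 9 / 10 < |ζ.re|} = (fun w : ℂ => |w.re|) ⁻¹' Ioi (9 / 10) := rfl
        rw [h]
        exact isOpen_Ioi.preimage (by fun_prop)
      have hw' : 9 / 10 < |w.re| := by
        push Not at hw
        linarith
      have : (fun w : ℂ => b w.re * P0 L x w) =ᶠ[𝓝 w] fun _ => (0 : ℝ) := by
        filter_upwards [ho.mem_nhds hw'] with y hy
        rw [hb0 y.re (le_of_lt hy), zero_mul]
      exact contDiffAt_const.congr_of_eventuallyEq this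
  · intro w
    have h1 : (w + 2 * Real.pi * Complex.I).re = w.re := by simp
    simp only [h1, P0_shift]
    ring
  · intro w hw
    have : b w.re = 0 := hb0 w.re (by linarith)
    simp only [this, zero_mul]
  · intro w hw
    rw [lapC_congr (hnear w hw)]
    obtain ⟨k0, hk⟩ := hk0 w.im
    rw [(hmain w.im k0 hk w (hself w (by linarith))).2]
    apply mul_nonneg (zpow_pos lam_pos k0).le
    apply hLn
    rw [tau_re]
    have := abs_sub w.re x.re
    linarith
  · intro w hw hk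
    rw [lapC_congr (hnear w hw)]
    obtain ⟨k0, hk'⟩ := hk0 w.im
    rw [(hmain w.im k0 hk' w (hself w (by linarith))).2]
    have h1 : lapC L (tau x k0 w) = 0 := by
      apply hLz
      · rw [tau_re]
        have := abs_sub w.re x.re
        linarith
      · exact hk k0
    rw [h1, mul_zero]
  · intro R hrR hR4
    have hball : ∀ w ∈ Metric.ball x R, lapC (fun w : ℂ => b w.re * P0 L x w) w =
        lapC L (w - x) := by
      intro w hw
      have hd : ‖w - x‖ < R := by rwa [Metric.mem_ball, dist_eq_norm] at hw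
      have hre : |w.re - x.re| < 1 / 4 := by
        have h1 := Complex.abs_re_le_norm (w - x)
        simp only [Complex.sub_re] at h1
        linarith
      have him : |w.im - x.im| < 1 / 4 := by
        have h1 := Complex.abs_im_le_norm (w - x)
        simp only [Complex.sub_im] at h1
        linarith
      have hw34 : |w.re| < 3 / 4 := by
        have h1 : |w.re| ≤ |w.re - x.re| + |x.re| := by
          have := abs_add_le (w.re - x.re) x.re
          simpa using this
        linarith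
      rw [lapC_congr (hnear w hw34)]
      have hmem : w ∈ Vc x.im := ⟨by linarith, by linarith⟩
      have h0 : |x.im - x.im - 2 * Real.pi * ((0 : ℤ) : ℝ)| ≤ Real.pi := by
        simpa using Real.pi_pos.le
      rw [(hmain x.im 0 h0 w hmem).2]
      simp [tau]
    rw [setIntegral_congr_fun Metric.isOpen_ball.measurableSet hball]
    rw [← hLi R hrR hR4]
    have hpre : Metric.ball x R = (fun w => w - x) ⁻¹' Metric.ball (0 : ℂ) R := by
      ext w
      simp [Metric.mem_ball, dist_eq_norm]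
    have hmp : MeasurePreserving (fun w : ℂ => w - x) volume volume :=
      measurePreserving_sub_right volume x
    rw [hpre]
    exact hmp.setIntegral_preimage_emb (measurableEmbedding_subRight x) (fun w => lapC L w)
      (Metric.ball 0 R)

end Pool.Agent.Helper72.AB.PHole
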