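import Pool.Agent.Helper24.AB.PHI.Goals
import Pool.Agent.Helper72.AB.PHOLE

open MeasureTheory Set Filter Topology
open scoped ContDiff

noncomputable section

namespace Pool.Agent.Helper72.AB.Vid

open Pool.Agent.Helper24.AB Pool.Agent.Helper72.AB.PHole

/-- the first derivatives of a composition -/
lemma fderiv_comp_real {g : ℝ → ℝ} {f : ℂ → ℝ} {y : ℂ} (hg : DifferentiableAt ℝ g (f y))
    (hf : DifferentiableAt ℝ f y) (v : ℂ) :
    fderiv ℝ (fun z => g (f z)) y v = deriv g (f y) * fderiv ℝ f y v := by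
  have h := (hg.hasDerivAt.comp_hasFDerivAt y hf.hasFDerivAt)
  have h2 : fderiv ℝ (fun z => g (f z)) y = deriv g (f y) • fderiv ℝ f y := h.fderiv
  rw [h2]
  rfl

lemma ev_diff_real {g : ℝ → ℝ} {x : ℝ} (h : ContDiffAt ℝ 2 g x) :
    ∀ᶠ y in 𝓝 x, DifferentiableAt ℝ g y := by
  filter_upwards [h.eventually (by simp)] with y hy
  exact hy.differentiableAt (by simp)

lemma diff_deriv {g : ℝ → ℝ} {x : ℝ} (h : ContDiffAt ℝ 2 g x) :
    DifferentiableAt ℝ (deriv g) x := by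
  have h1 : ContDiffAt ℝ 1 (fderiv ℝ g) x := h.fderiv_right (by norm_num)
  have h2 : deriv g = fun y => fderiv ℝ g y 1 := by
    funext y
    exact (fderiv_apply_one_eq_deriv).symm
  rw [h2]
  exact (h1.differentiableAt (by simp)).clm_apply (differentiableAt_const _)

/-- the Laplacian of a composition -/
lemma lapC_comp {g : ℝ → ℝ} {f : ℂ → ℝ} {w : ℂ} (hg : ContDiffAt ℝ 2 g (f w))
    (hf : ContDiffAt ℝ 2 f w) : lapC (fun z => g (f z)) w =
      deriv g (f w) * lapC f w + deriv (deriv g) (f w) * (dS f w ^ 2 + dT f w ^ 2) := by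
  have key : ∀ v : ℂ, (fun y => fderiv ℝ (fun z => g (f z)) y v) =ᶠ[𝓝 w]
      fun y => deriv g (f y) * fderiv ℝ f y v := by
    intro v
    have h1 : ∀ᶠ y in 𝓝 w, DifferentiableAt ℝ g (f y) :=
      hf.continuousAt.eventually (ev_diff_real hg)
    filter_upwards [h1, ev_diff hf] with y h2 h3
    exact fderiv_comp_real h2 h3 v
  have hfd : DifferentiableAt ℝ f w := hf.differentiableAt (by simp)
  have hgd : DifferentiableAt ℝ (fun y => deriv g (f y)) w := (diff_deriv hg).comp w hfd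
  have k2 : ∀ v : ℂ, fderiv ℝ (fun y => fderiv ℝ (fun z => g (f z)) y v) w v =
      deriv g (f w) * fderiv ℝ (fun y => fderiv ℝ f y v) w v +
        deriv (deriv g) (f w) * (fderiv ℝ f w v) ^ 2 := by
    intro v
    rw [(key v).fderiv_eq, fderiv_fun_mul hgd (diff_dS hf v)]
    simp only [add_apply, smul_apply, smul_eq_mul]
    rw [fderiv_comp_real (diff_deriv hg) hfd v]
    ring
  rw [lapC_def, lapC_def, k2 1, k2 Complex.I]
  simp only [dS, dT]
  ring

lemma lapC_zero (c : ℝ) (w : ℂ) : lapC (fun _ => c) w = 0 := by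
  simp [lapC_def]

lemma re_facts (w : ℂ) : lapC (fun z : ℂ => z.re) w = 0 ∧ dS (fun z : ℂ => z.re) w = 1 ∧
    dT (fun z : ℂ => z.re) w = 0 := by
  have h : ∀ y : ℂ, fderiv ℝ (fun z : ℂ => z.re) y = Complex.reCLM := fun y =>
    Complex.reCLM.hasFDerivAt.fderiv
  refine ⟨?_, ?_, ?_⟩
  · rw [lapC_def]; simp [h]
  · simp [dS, h]
  · simp [dT, h]

lemma im_facts (w : ℂ) : lapC (fun z : ℂ => z.im) w = 0 ∧ dS (fun z : ℂ => z.im) w = 0 ∧
    dT (fun z : ℂ => z.im) w = 1 := by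
  have h : ∀ y : ℂ, fderiv ℝ (fun z : ℂ => z.im) y = Complex.imCLM := fun y =>
    Complex.imCLM.hasFDerivAt.fderiv
  refine ⟨?_, ?_, ?_⟩
  · rw [lapC_def]; simp [h]
  · simp [dS, h]
  · simp [dT, h]

lemma lapC_fun_re {g : ℝ → ℝ} {w : ℂ} (hg : ContDiffAt ℝ 2 g w.re) :
    lapC (fun z => g z.re) w = deriv (deriv g) w.re := by
  obtain ⟨h1, h2, h3⟩ := re_facts w
  rw [lapC_comp (f := fun z : ℂ => z.re) hg Complex.reCLM.contDiff.contDiffAt, h1, h2, h3]
  ring

lemma lapC_fun_im {g : ℝ → ℝ} {w : ℂ} (hg : ContDiffAt ℝ 2 g w.im) :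
    lapC (fun z => g z.im) w = deriv (deriv g) w.im := by
  obtain ⟨h1, h2, h3⟩ := im_facts w
  rw [lapC_comp (f := fun z : ℂ => z.im) hg Complex.imCLM.contDiff.contDiffAt, h1, h2, h3]
  ring

/-- `(log h)'' = h''/h - h'²/h²` -/
lemma deriv2_log {h : ℝ → ℝ} {x : ℝ} (hh : ContDiffAt ℝ 2 h x) (hx : 0 < h x) :
    deriv (deriv (fun y => Real.log (h y))) x =
      deriv (deriv h) x / h x - deriv h x ^ 2 / h x ^ 2 := by
  have h1 : (deriv (fun y => Real.log (h y))) =ᶠ[𝓝 x] fun y => deriv h y / h y := by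
    have h2 : ∀ᶠ y in 𝓝 x, 0 < h y := hh.continuousAt.eventually (lt_mem_nhds hx)
    filter_upwards [h2, ev_diff_real hh] with y h3 h4
    exact (h4.hasDerivAt.log h3.ne').deriv
  rw [h1.deriv_eq]
  have hd : DifferentiableAt ℝ h x := hh.differentiableAt (by simp)
  rw [deriv_fun_div (diff_deriv hh) hd hx.ne']
  field_simp

/-! ## the functions -/

lemma strip_re {a : ℝ} {w : ℂ} (hw : w ∈ strip a) : w.re ∈ Ioo (-a) a := abs_lt.mp hw

lemma e_pos {a x : ℝ} (hx : x ∈ Ioo (-a) a) : 0 < a ^ 2 - x ^ 2 := by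
  nlinarith [hx.1, hx.2]

lemma s_smooth {a A : ℝ} {s : ℝ → ℝ} (hs : IsProfile a A s) {x : ℝ} (hx : x ∈ Ioo (-a) a) :
    ContDiffAt ℝ ∞ s x := hs.smooth.contDiffAt (isOpen_Ioo.mem_nhds hx)

lemma uf_smooth (α : ℝ) : ContDiff ℝ ∞ (uf α) := by
  unfold uf
  fun_prop

lemma vf_smooth (α : ℝ) : ContDiff ℝ ∞ (vf α) := by
  unfold vf
  fun_prop

lemma gf_smooth (α' l : ℝ) : ContDiff ℝ ∞ (gf α' l) := by
  have := vf_smooth α'
  unfold gf
  fun_prop

lemma Ff_smooth {a A : ℝ} {s : ℝ → ℝ} (hs : IsProfile a A s) (α α' l : ℝ) {w : ℂ}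
    (hw : w ∈ strip a) : ContDiffAt ℝ ∞ (Ff a A s α α' l) w := by
  have hre : ContDiffAt ℝ ∞ (fun z : ℂ => z.re) w := Complex.reCLM.contDiff.contDiffAt
  have him : ContDiffAt ℝ ∞ (fun z : ℂ => z.im) w := Complex.imCLM.contDiff.contDiffAt
  have h1 : ContDiffAt ℝ ∞ (fun z : ℂ => s z.re) w :=
    (s_smooth hs (strip_re hw)).comp w hre
  have h2 : ContDiffAt ℝ ∞ (fun z : ℂ => uf α z.im) w :=
    (uf_smooth α).contDiffAt.comp w him
  have h3 : ContDiffAt ℝ ∞ (fun z : ℂ => gf α' l z.im) w :=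
    (gf_smooth α' l).contDiffAt.comp w him
  have h4 : ContDiffAt ℝ ∞ (fun z : ℂ => 4 * A ^ 2 * (a ^ 2 - z.re ^ 2)) w := by
    have : ContDiffAt ℝ ∞ (fun z : ℂ => z.re ^ 2) w := hre.pow 2
    exact contDiffAt_const.mul (contDiffAt_const.sub this)
  exact ((h1.pow 2).mul (h2.pow 2)).add (h4.mul h3)

lemma deriv2_uf (α t : ℝ) : deriv (deriv (uf α)) t = kap ^ 2 * uf α t := by
  have h : ∀ c : ℝ, ∀ y : ℝ, HasDerivAt (fun t => c * Real.exp (kap * t))
      (c * kap * Real.exp (kap * y)) y := by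
    intro c y
    have h1 : HasDerivAt (fun t : ℝ => kap * t) kap y := by
      simpa using (hasDerivAt_id y).const_mul kap
    have h2 := (h1.exp).const_mul c
    refine h2.congr_deriv ?_
    ring
  have e1 : deriv (uf α) = fun y => α * kap * Real.exp (kap * y) := by
    funext y
    exact (h α y).deriv
  rw [e1, (h (α * kap) t).deriv]
  unfold uf
  ring

lemma deriv2_loge (a x : ℝ) (hx : x ∈ Ioo (-a) a) :
    deriv (deriv (fun y => Real.log (a ^ 2 - y ^ 2))) x =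
      -(2 * (a ^ 2 + x ^ 2)) / (a ^ 2 - x ^ 2) ^ 2 := by
  have h : ContDiff ℝ ∞ (fun y : ℝ => a ^ 2 - y ^ 2) := by fun_prop
  have he := e_pos hx
  rw [deriv2_log (h.contDiffAt.of_le two_le) he]
  have h1 : ∀ y : ℝ, HasDerivAt (fun y : ℝ => a ^ 2 - y ^ 2) (-(2 * y)) y := by
    intro y
    have := (hasDerivAt_pow 2 y).const_sub (a ^ 2)
    simpa using this
  have e1 : deriv (fun y : ℝ => a ^ 2 - y ^ 2) = fun y => -(2 * y) := by
    funext y; exact (h1 y).deriv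
  have h2 : HasDerivAt (fun y : ℝ => -(2 * y)) (-2) x := by
    have h3 := ((hasDerivAt_id' x).const_mul 2).fun_neg
    simpa using h3
  rw [e1, h2.deriv]
  field_simp
  ring

lemma fy_facts (hQ : S_QF) : ContDiff ℝ ∞ (fun y => Real.log (fy y)) ∧
    deriv (fun y => Real.log (fy y)) = qf := by
  obtain ⟨h1, h2, -⟩ := hQ
  refine ⟨?_, ?_⟩
  · rw [contDiff_iff_contDiffAt]
    intro y
    exact h1.contDiffAt.log (h2 y).ne'
  · funext y
    have h3 : DifferentiableAt ℝ fy y := h1.differentiable (by simp) y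
    exact (h3.hasDerivAt.log (h2 y).ne').deriv

theorem vid (hQ : S_QF) (hT : S_TEX) : S_VID := by
  intro a A s hs α α' l hne w hw
  have hF : 0 < Ff a A s α α' l w := (hT a A s hs α α' l hne w hw).1
  have hre := strip_re hw
  have he := e_pos hre
  have hsx : 0 < s w.re := hs.pos _ hre
  obtain ⟨hgs, hgd⟩ := fy_facts hQ
  set F := Ff a A s α α' l with hFdef
  have hFs : ContDiffAt ℝ ∞ F w := Ff_smooth hs α α' l hw
  have hsq : ContDiffAt ℝ ∞ (fun z => Real.sqrt (F z)) w := hFs.sqrt hF.ne'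
  have hsq2 : ContDiffAt ℝ 2 (fun z => Real.sqrt (F z)) w := hsq.of_le two_le
  have hy2 : ContDiffAt ℝ 2 (fun z => 2 * Real.sqrt (F z)) w := contDiffAt_const.mul hsq2
  have hu2 : ContDiffAt ℝ 2 (fun z : ℂ => A * uf α z.im) w := by
    have h1 : ContDiffAt ℝ 2 (fun z : ℂ => uf α z.im) w :=
      ((uf_smooth α).of_le two_le).contDiffAt.comp w Complex.imCLM.contDiff.contDiffAt
    exact contDiffAt_const.mul h1
  have hlu : lapC (fun z : ℂ => A * uf α z.im) w = A * (kap ^ 2 * uf α w.im) := by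
    have h1 : ContDiffAt ℝ 2 (fun z : ℂ => uf α z.im) w :=
      ((uf_smooth α).of_le two_le).contDiffAt.comp w Complex.imCLM.contDiff.contDiffAt
    rw [lapC_mul h1, lapC_fun_im ((uf_smooth α).of_le two_le).contDiffAt, deriv2_uf]
  -- `H⁰`
  have hH : lapC (H0f a A s α α' l) w =
      A * (kap ^ 2 * uf α w.im) + lapC (fun z => Real.sqrt (F z)) w := by
    have : H0f a A s α α' l = fun z => A * uf α z.im + Real.sqrt (F z) := rfl
    rw [this, lapC_add hu2 hsq2, hlu]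
  -- `y = 2√F`
  have hly : lapC (fun z => 2 * Real.sqrt (F z)) w = 2 * lapC (fun z => Real.sqrt (F z)) w :=
    lapC_mul hsq2 2
  have hdv : ∀ v : ℂ, fderiv ℝ (fun z => 2 * Real.sqrt (F z)) w v =
      fderiv ℝ F w v / Real.sqrt (F w) := by
    intro v
    have hd : DifferentiableAt ℝ F w := hFs.differentiableAt (by simp)
    have h1 := (hd.hasFDerivAt.sqrt hF.ne').const_mul 2
    rw [h1.fderiv]
    simp only [smul_apply, smul_eq_mul]
    have h3 : Real.sqrt (F w) ≠ 0 := (Real.sqrt_pos.mpr hF).ne'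
    field_simp
  have hgrad : dS (fun z => 2 * Real.sqrt (F z)) w ^ 2 + dT (fun z => 2 * Real.sqrt (F z)) w ^ 2 =
      (dS F w ^ 2 + dT F w ^ 2) / F w := by
    simp only [dS, dT]
    rw [hdv 1, hdv Complex.I, div_pow, div_pow, Real.sq_sqrt hF.le]
    ring
  have hlf : lapC (fun z => Real.log (fy (2 * Real.sqrt (F z)))) w =
      qf (2 * Real.sqrt (F w)) * (2 * lapC (fun z => Real.sqrt (F z)) w) +
        deriv qf (2 * Real.sqrt (F w)) * ((dS F w ^ 2 + dT F w ^ 2) / F w) := by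
    have h1 := lapC_comp (g := fun y => Real.log (fy y)) (f := fun z => 2 * Real.sqrt (F z))
      (w := w) (hgs.of_le two_le).contDiffAt hy2
    rw [h1, hgd, hly, hgrad]
  have hlf2 : ContDiffAt ℝ 2 (fun z => Real.log (fy (2 * Real.sqrt (F z)))) w :=
    ContDiffAt.comp w (hgs.of_le two_le).contDiffAt hy2
  -- `log s`
  have hs2 : ContDiffAt ℝ 2 s w.re := (s_smooth hs hre).of_le two_le
  have hls : lapC (fun z : ℂ => Real.log (s z.re)) w =
      deriv (deriv s) w.re / s w.re - deriv s w.re ^ 2 / s w.re ^ 2 := by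
    have h1 := lapC_fun_re (g := fun y => Real.log (s y)) (w := w) (hs2.log hsx.ne')
    rw [h1, deriv2_log hs2 hsx]
  have hls2 : ContDiffAt ℝ 2 (fun z : ℂ => Real.log (s z.re)) w :=
    ContDiffAt.comp w (hs2.log hsx.ne') Complex.reCLM.contDiff.contDiffAt
  -- `log e`
  have hee : ContDiffAt ℝ 2 (fun y : ℝ => Real.log (a ^ 2 - y ^ 2)) w.re := by
    have h : ContDiff ℝ 2 (fun y : ℝ => a ^ 2 - y ^ 2) := by fun_prop
    exact h.contDiffAt.log he.ne'
  have hle : lapC (fun z : ℂ => Real.log (a ^ 2 - z.re ^ 2)) w =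
      -(2 * (a ^ 2 + w.re ^ 2)) / (a ^ 2 - w.re ^ 2) ^ 2 := by
    have h1 := lapC_fun_re (g := fun y => Real.log (a ^ 2 - y ^ 2)) (w := w) hee
    rw [h1, deriv2_loge a w.re hre]
  have hle2 : ContDiffAt ℝ 2 (fun z : ℂ => Real.log (a ^ 2 - z.re ^ 2)) w :=
    ContDiffAt.comp w hee Complex.reCLM.contDiff.contDiffAt
  -- assembly
  have hPhi : Phi0 a A s α α' l = fun z => ((((-1) * (A * uf α z.im) +
      (-(1 / 2)) * Real.log (s z.re)) + (-(1 / 2)) * Real.log (a ^ 2 - z.re ^ 2)) +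
      (-(1 / 2)) * Real.log (fy (2 * Real.sqrt (F z)))) +
      (-(Real.log (4 * Real.sqrt 5 * Real.pi * A ^ 2) / 2)) := by
    funext z
    simp only [Phi0, hFdef]
    ring
  have c1 : ContDiffAt ℝ 2 (fun z : ℂ => (-1) * (A * uf α z.im)) w := contDiffAt_const.mul hu2
  have c2 : ContDiffAt ℝ 2 (fun z : ℂ => (-(1 / 2)) * Real.log (s z.re)) w :=
    contDiffAt_const.mul hls2
  have c3 : ContDiffAt ℝ 2 (fun z : ℂ => (-(1 / 2)) * Real.log (a ^ 2 - z.re ^ 2)) w :=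
    contDiffAt_const.mul hle2
  have c4 : ContDiffAt ℝ 2 (fun z : ℂ => (-(1 / 2)) * Real.log (fy (2 * Real.sqrt (F z)))) w :=
    contDiffAt_const.mul hlf2
  rw [hPhi, lapC_add (((c1.add c2).add c3).add c4) contDiffAt_const, lapC_zero,
    lapC_add ((c1.add c2).add c3) c4, lapC_add (c1.add c2) c3, lapC_add c1 c2,
    lapC_mul hu2, lapC_mul hls2, lapC_mul hle2, lapC_mul hlf2, hlu, hls, hle, hlf, hH]
  have hF0 := hF.ne'
  have he0 := he.ne'
  have hs0 := hsx.ne'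
  field_simp
  ring

end Pool.Agent.Helper72.AB.Vid
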