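import Pool.Agent.Helper95.AB.GoalsW

open MeasureTheory Set Filter Topology
open scoped ContDiff

noncomputable section

namespace Pool.Agent.Helper72.AB.Psi

open Pool.Agent.Helper24.AB Pool.Agent.Helper95.AB

/-! ## the transition function -/

lemma chi_deriv_zero_of_neg {x : ℝ} (hx : x < 0) : deriv Real.smoothTransition x = 0 := by
  have h : Real.smoothTransition =ᶠ[𝓝 x] fun _ => (0 : ℝ) := by
    filter_upwards [Iio_mem_nhds hx] with y hy
    exact Real.smoothTransition.zero_of_nonpos (le_of_lt hy)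
  rw [h.deriv_eq]
  simp

lemma chi_deriv_zero_of_one_le {x : ℝ} (hx : 1 ≤ x) : deriv Real.smoothTransition x = 0 := by
  apply IsLocalMax.deriv_eq_zero
  filter_upwards with y
  rw [Real.smoothTransition.one_of_one_le hx]
  exact Real.smoothTransition.le_one y

lemma chi_bound : ∃ C : ℝ, 1 ≤ C ∧ ∀ x, |deriv Real.smoothTransition x| ≤ C := by
  have hc : Continuous (deriv Real.smoothTransition) :=
    (Real.smoothTransition.contDiff (n := 1)).continuous_deriv (by simp)
  obtain ⟨C, hC⟩ := (isCompact_Icc (a := (0 : ℝ)) (b := 1)).exists_bound_of_continuousOn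
    hc.continuousOn
  refine ⟨max 1 C, le_max_left _ _, ?_⟩
  intro x
  by_cases h0 : x < 0
  · rw [chi_deriv_zero_of_neg h0]
    simp
  · by_cases h1 : 1 ≤ x
    · rw [chi_deriv_zero_of_one_le h1]
      simp
    · have := hC x ⟨by linarith, by linarith⟩
      exact this.trans (le_max_right _ _)

/-! ## the staircase -/

section
variable (Good : Set ℤ) (k₀ : ℤ) (τ b : ℝ)

open Classical in
/-- one step -/
def stp (k : ℤ) (t : ℝ) : ℝ :=
  if k ∈ Good then Real.smoothTransition ((t - 2 * Real.pi * k - τ) / b) else 0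

/-- finite staircase -/
def psiK (K : ℤ) (t : ℝ) : ℝ := ∑ k ∈ Finset.Icc k₀ K, stp Good τ b k t

/-- the staircase -/
def psi (t : ℝ) : ℝ := psiK Good k₀ τ b ⌊t / (2 * Real.pi)⌋ t

variable {Good k₀ τ b}

lemma stp_zero (hτ : 0 < τ) (hb : 0 < b) {k : ℤ} {t : ℝ} (h : t ≤ 2 * Real.pi * k + τ) :
    stp Good τ b k t = 0 := by
  unfold stp
  split_ifs with hk
  · apply Real.smoothTransition.zero_of_nonpos
    apply div_nonpos_of_nonpos_of_nonneg _ hb.le
    linarith
  · rfl

lemma stp_nonneg (k : ℤ) (t : ℝ) : 0 ≤ stp Good τ b k t := by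
  unfold stp
  split_ifs
  · exact Real.smoothTransition.nonneg _
  · exact le_rfl

lemma psi_eq (hτ : 0 < τ) (hb : 0 < b) {K : ℤ} {t : ℝ} (h : t < 2 * Real.pi * (K + 1)) :
    psi Good k₀ τ b t = psiK Good k₀ τ b K t := by
  have hpi : 0 < 2 * Real.pi := by positivity
  have hfl : ⌊t / (2 * Real.pi)⌋ ≤ K := by
    have h1 : t / (2 * Real.pi) < K + 1 := by
      rw [div_lt_iff₀ hpi]
      linarith
    have h2 : ⌊t / (2 * Real.pi)⌋ < K + 1 := by
      rw [Int.floor_lt]
      push_cast
      exact h1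
    omega
  unfold psi psiK
  apply Finset.sum_subset
  · intro k hk
    rw [Finset.mem_Icc] at hk ⊢
    exact ⟨hk.1, hk.2.trans hfl⟩
  · intro k hk hk2
    rw [Finset.mem_Icc] at hk hk2
    have h3 : ⌊t / (2 * Real.pi)⌋ < k := by
      by_contra hcon
      push Not at hcon
      exact hk2 ⟨hk.1, hcon⟩
    have h4 : t / (2 * Real.pi) < k := Int.floor_lt.mp h3
    rw [div_lt_iff₀ hpi] at h4
    apply stp_zero hτ hb
    linarith

lemma stp_smooth (k : ℤ) : ContDiff ℝ ∞ (stp Good τ b k) := by
  unfold stp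
  split_ifs
  · have h : ContDiff ℝ ∞ (fun t : ℝ => (t - 2 * Real.pi * k - τ) / b) := by fun_prop
    exact Real.smoothTransition.contDiff.comp h
  · exact contDiff_const

lemma psiK_smooth (K : ℤ) : ContDiff ℝ ∞ (psiK Good k₀ τ b K) := by
  unfold psiK
  exact ContDiff.sum (fun k _ => stp_smooth k)

lemma psi_near (hτ : 0 < τ) (hb : 0 < b) {K : ℤ} {t : ℝ} (h : t < 2 * Real.pi * (K + 1)) :
    psi Good k₀ τ b =ᶠ[𝓝 t] psiK Good k₀ τ b K := by
  filter_upwards [Iio_mem_nhds h] with y hy
  exact psi_eq hτ hb hy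

lemma deriv_stp (k : ℤ) (t : ℝ) (hk : k ∈ Good) : deriv (stp Good τ b k) t =
    deriv Real.smoothTransition ((t - 2 * Real.pi * k - τ) / b) / b := by
  have e : stp Good τ b k =
      fun t => Real.smoothTransition ((t - 2 * Real.pi * k - τ) / b) := by
    funext t
    simp [stp, hk]
  have h1 : HasDerivAt (fun t : ℝ => (t - 2 * Real.pi * k - τ) / b) (1 / b) t :=
    (((hasDerivAt_id' t).sub_const (2 * Real.pi * k)).sub_const τ).div_const b
  have h2 : HasDerivAt Real.smoothTransition
      (deriv Real.smoothTransition ((t - 2 * Real.pi * k - τ) / b))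
      ((t - 2 * Real.pi * k - τ) / b) :=
    ((Real.smoothTransition.contDiff (n := 1)).differentiable (by simp) _).hasDerivAt
  have h3 := h2.comp t h1
  rw [e]
  have h4 : deriv (fun t => Real.smoothTransition ((t - 2 * Real.pi * k - τ) / b)) t = _ :=
    h3.deriv
  rw [h4]
  ring

lemma deriv_stp_out (k : ℤ) (t : ℝ) (hk : k ∉ Good) : deriv (stp Good τ b k) t = 0 := by
  have e : stp Good τ b k = fun _ => 0 := by
    funext t
    simp [stp, hk]
  rw [e]
  simp

lemma stp_prev (hb : 0 < b) (hτb : τ + b < 2 * Real.pi) {k' k : ℤ} {t : ℝ} (hk : k' < k)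
    (ht : 2 * Real.pi * k ≤ t) : 1 ≤ (t - 2 * Real.pi * k' - τ) / b := by
  rw [le_div_iff₀ hb]
  have h1 : (k' : ℝ) + 1 ≤ k := by exact_mod_cast hk
  have hpi : 0 < 2 * Real.pi := by positivity
  nlinarith

lemma deriv_psi (hτ : 0 < τ) (hb : 0 < b) (hτb : τ + b < 2 * Real.pi) {k : ℤ} {t : ℝ}
    (h1 : 2 * Real.pi * k ≤ t) (h2 : t < 2 * Real.pi * (k + 1)) :
    deriv (psi Good k₀ τ b) t = if k₀ ≤ k then deriv (stp Good τ b k) t else 0 := by
  rw [(psi_near hτ hb h2).deriv_eq]
  have h3 : psiK Good k₀ τ b k = ∑ k' ∈ Finset.Icc k₀ k, stp Good τ b k' := by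
    funext y
    simp [psiK]
  rw [h3, deriv_sum (fun k' _ => (stp_smooth k').differentiable (by simp) t)]
  have h4 : ∀ k' ∈ Finset.Icc k₀ k, k' ≠ k → deriv (stp Good τ b k') t = 0 := by
    intro k' hk' hne
    rw [Finset.mem_Icc] at hk'
    have hlt : k' < k := lt_of_le_of_ne hk'.2 hne
    by_cases hG : k' ∈ Good
    · rw [deriv_stp k' t hG, chi_deriv_zero_of_one_le (stp_prev hb hτb hlt h1)]
      simp
    · exact deriv_stp_out k' t hG
  split_ifs with hk
  · rw [Finset.sum_eq_single k h4]
    intro hnot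
    exact absurd (Finset.mem_Icc.mpr ⟨hk, le_rfl⟩) hnot
  · rw [Finset.Icc_eq_empty hk]
    simp

end

theorem psi1 : S_PSI1 := by
  obtain ⟨C, hC1, hC⟩ := chi_bound
  refine ⟨C, hC1, ?_⟩
  intro Good k₀ τ b hG hτ hb hτb
  have hpi : 0 < 2 * Real.pi := by positivity
  have hsheet : ∀ t : ℝ, ∃ k : ℤ, 2 * Real.pi * k ≤ t ∧ t < 2 * Real.pi * (k + 1) := by
    intro t
    refine ⟨⌊t / (2 * Real.pi)⌋, ?_, ?_⟩
    · have := Int.floor_le (t / (2 * Real.pi))
      rw [le_div_iff₀ hpi] at this
      linarith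
    · have := Int.lt_floor_add_one (t / (2 * Real.pi))
      rw [div_lt_iff₀ hpi] at this
      linarith
  refine ⟨psi Good k₀ τ b, ?_, ?_, ?_⟩
  · rw [contDiff_iff_contDiffAt]
    intro t
    obtain ⟨k, h1, h2⟩ := hsheet t
    exact (psiK_smooth k).contDiffAt.congr_of_eventuallyEq (psi_near hτ hb h2)
  · intro t
    obtain ⟨k, h1, h2⟩ := hsheet t
    rw [deriv_psi hτ hb hτb h1 h2]
    have h0 : 0 ≤ C / b := by positivity
    split_ifs with hk
    · by_cases hkG : k ∈ Good
      · rw [deriv_stp k t hkG, abs_div, abs_of_pos hb]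
        exact div_le_div_of_nonneg_right (hC _) hb.le
      · rw [deriv_stp_out k t hkG]
        simpa using h0
    · simpa using h0
  · intro k t h1 h2
    have hd := deriv_psi (Good := Good) (k₀ := k₀) hτ hb hτb h1 h2
    refine ⟨?_, ?_, ?_, ?_⟩
    · intro hkG
      rw [hd, deriv_stp_out k t hkG]
      simp
    · intro ht
      rw [hd]
      have : deriv (stp Good τ b k) t = 0 := by
        by_cases hkG : k ∈ Good
        · rw [deriv_stp k t hkG]
          rcases ht with ht | ht
          · rw [chi_deriv_zero_of_neg (div_neg_of_neg_of_pos (by linarith) hb)]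
            simp
          · rw [chi_deriv_zero_of_one_le (by rw [le_div_iff₀ hb]; linarith)]
            simp
        · exact deriv_stp_out k t hkG
      rw [this]
      simp
    · -- lower bound
      classical
      have hset : Good ∩ Ico k₀ k = ↑((Finset.Ico k₀ k).filter (fun x => x ∈ Good)) := by
        ext x
        simp [and_comm]
      rw [hset, Set.ncard_coe_finset, psi_eq hτ hb h2]
      unfold psiK
      have h3 : ((((Finset.Ico k₀ k).filter (fun x => x ∈ Good)).card : ℕ) : ℝ) =
          ∑ k' ∈ Finset.Ico k₀ k, stp Good τ b k' t := by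
        rw [Finset.card_filter]
        push_cast
        apply Finset.sum_congr rfl
        intro k' hk'
        rw [Finset.mem_Ico] at hk'
        unfold stp
        split_ifs with hkG
        · rw [Real.smoothTransition.one_of_one_le (stp_prev hb hτb hk'.2 h1)]
        · rfl
      rw [h3]
      apply Finset.sum_le_sum_of_subset_of_nonneg
      · intro x hx
        rw [Finset.mem_Ico] at hx
        rw [Finset.mem_Icc]
        exact ⟨hx.1, hx.2.le⟩
      · intro x _ _
        exact stp_nonneg x t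
    · -- upper bound
      classical
      have hset : Good ∩ Icc k₀ k = ↑((Finset.Icc k₀ k).filter (fun x => x ∈ Good)) := by
        ext x
        simp [and_comm]
      rw [hset, Set.ncard_coe_finset, psi_eq hτ hb h2]
      unfold psiK
      rw [Finset.card_filter]
      push_cast
      apply Finset.sum_le_sum
      intro k' _
      unfold stp
      split_ifs with hkG
      · exact Real.smoothTransition.le_one _
      · exact le_rfl

end Pool.Agent.Helper72.AB.Psi
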